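import Mathlib
import Pool.Agent.U581.LB.Stm

/-!
# Project LD: the error term of the divisor problem is locally a Brownian motion

Statements of the packages. The variable is `R`, the error term is `√2 Δ((R/2)²)`, so that the
frequencies are `2 π √n` as in the circle problem; the definitions `sf`, `rt`, `blk`, `Yq`, `bq`, `vq`,
`Y`, `V`, `u01`, `Th`, `AdmL` and the statements `S_CLT`, `S_FOUR`, `S_TIGHT`, `S_KW` are those of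
project LB (`Pool.Agent.U581.LB`).
-/

set_option autoImplicit false

namespace Pool.Agent.U251.LD

open Real MeasureTheory Filter Topology ProbabilityTheory Pool.Agent.U581.BM Pool.Agent.U581.LB
open scoped BoundedContinuousFunction NNReal

/-- the number of divisors -/
noncomputable def dv (n : ℕ) : ℝ := (n.divisors.card : ℝ)

/-- the coefficients of the Voronoi series -/
noncomputable def cd (n : ℕ) : ℝ := dv n / (π * √2) * (n : ℝ) ^ (-(3 / 4) : ℝ)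

/-! ## Number theory -/

/-- the sum of the squares of the divisor function -/
def S_RS : Prop :=
  Tendsto (fun X : ℕ => (∑ n ∈ Finset.Icc 1 X, dv n ^ 2) / (X * log X ^ 3)) atTop (𝓝 (1 / π ^ 2))

/-- the function `d * d`, that is `d₄` -/
noncomputable def d4 (n : ℕ) : ℝ := ∑ p ∈ n.divisorsAntidiagonal, dv p.1 * dv p.2

/-- **package D4** -/
def S_D4 : Prop :=
  Tendsto (fun X : ℕ => (∑ n ∈ Finset.Icc 1 X, d4 n) / (X * log X ^ 3)) atTop (𝓝 (1 / 6))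

/-- **package D4I** (the pointwise identity `d(n)² = ∑_(e² | n) μ(e) d₄(n / e²)`) -/
def S_D4I : Prop := ∀ n : ℕ, 0 < n →
  dv n ^ 2 = ∑ e ∈ (Finset.Icc 1 n).filter (fun e => e ^ 2 ∣ n),
    (ArithmeticFunction.moebius e : ℝ) * d4 (n / e ^ 2)

/-- **package VAR** (from `S_RS` and `S_UP`) -/
def S_VAR : Prop := ∀ ε : ℝ, 0 < ε → ∃ h₀ : ℝ, 0 < h₀ ∧ ∀ h : ℝ, 0 < h → h ≤ h₀ →
  ∃ N₀ : ℕ, ∀ N : ℕ, N₀ ≤ N →
    |∑ n ∈ Finset.Icc 1 N, cd n ^ 2 * (1 - cos (2 * π * (√n * h))) -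
        8 / π ^ 2 * (h * log (1 / h) ^ 3)| ≤ ε * (h * log (1 / h) ^ 3)

/-- **package UP** -/
def S_UP : Prop := ∃ C : ℝ, 0 < C ∧ (∀ X : ℕ, 1 ≤ X →
    ∑ n ∈ Finset.Icc 1 X, dv n ^ 2 ≤ C * (X * (1 + log X) ^ 3)) ∧
  ∀ (N : ℕ) (h : ℝ), 0 < h → h ≤ 1 →
    ∑ n ∈ Finset.Icc 1 N, cd n ^ 2 * min 2 (2 * π ^ 2 * (n * h ^ 2)) ≤
      C * (h * (1 + log (1 / h)) ^ 3)

/-! ## The blocks -/

/-- the bounds of the blocks of the increments -/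
noncomputable def Bh (N q : ℕ) (h : ℝ) : ℝ := ∑ n ∈ blk N q, cd n * min 2 (2 * π * (√n * h))

/-- the variances of the blocks of the increments -/
noncomputable def Vh (N q : ℕ) (h : ℝ) : ℝ :=
  ∑ n ∈ blk N q, cd n ^ 2 * min 2 (2 * π ^ 2 * (n * h ^ 2))

/-- **package BLK** -/
def S_BLK : Prop := ∃ C : ℝ, 0 < C ∧ ∀ (N : ℕ) (h : ℝ), 0 < h → h ≤ 1 →
  ∑ q ∈ Finset.Icc 1 N, Bh N q h * Vh N q h ≤ C * h ^ (9 / 4 : ℝ) ∧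
  ∑ q ∈ Finset.Icc 1 N, Bh N q h ^ 2 * Vh N q h ≤ C * h ^ (5 / 2 : ℝ)

/-! ## From radii to the torus -/

/-- the error term of the divisor problem -/
noncomputable def Dl (x : ℝ) : ℝ :=
  ∑ n ∈ Finset.Icc 1 ⌊x⌋₊, (n.divisors.card : ℝ) - x * (log x + 2 * Real.eulerMascheroniConstant - 1)

/-- the error term in the doubled variable -/
noncomputable def Pd (R : ℝ) : ℝ := √2 * Dl ((R / 2) ^ 2)

/-- the truncated Voronoi series -/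
noncomputable def UD (N : ℕ) (R : ℝ) : ℝ :=
  ∑ n ∈ Finset.Icc 1 N, cd n * cos (2 * π * (R * √n) - π / 4)

/-- **package MS** (mean square approximation, also at shifted arguments) -/
def S_MS : Prop := ∀ c₁ c₂ K s : ℝ, 0 < c₁ → 1 / 3 < s → ∀ h : ℝ, 0 ≤ h → ∀ η : ℝ, 0 < η →
  ∃ L₀ : ℕ, ∀ L : ℕ, L₀ ≤ L → ∃ T₀ : ℝ, ∀ T : ℝ, T₀ ≤ T → ∀ μ : Measure ℝ, AdmL c₁ c₂ K s T μ →
    ∫ x, (Pd (T * x + h) / √(T * x) - UD (L ^ 2) (T * x + h)) ^ 2 ∂μ ≤ η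

/-! ## The assembly -/

/-- the normalising constant -/
noncomputable def sg (ρ : ℝ) : ℝ := √(8 / π ^ 2 * (ρ * log (1 / ρ) ^ 3))

/-- the path of the error term above `R` -/
noncomputable def pathR (ρ : ℝ) (M : ℕ) (R : ℝ) : C(unitInterval, ℝ) :=
  polygon M fun i => (Pd (R + ρ * (i / M)) - Pd R) / (√R * sg ρ)

/-- the coefficients of the increments -/
noncomputable def cc (ρ u : ℝ) (n : ℕ) : ℂ :=
  ((cd n / sg ρ : ℝ) : ℂ) * Complex.exp (((-(π / 4) : ℝ) : ℂ) * Complex.I) *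
    (Complex.exp (((2 * π * (√n * (ρ * u)) : ℝ) : ℂ) * Complex.I) - 1)

/-- the path on the torus -/
noncomputable def pathT (ρ : ℝ) (M N : ℕ) (θ : ℕ → ℝ) : C(unitInterval, ℝ) :=
  polygon M fun i => Y (cc ρ (i / M)) N θ

/-- **package LIM** (from `S_KW`, `S_FOUR`, `S_MS`) -/
def S_LIM : Prop := ∀ c₁ c₂ K s : ℝ, 0 < c₁ → 1 / 3 < s → ∀ (ρ : ℝ) (M : ℕ), 0 < ρ → ρ < 1 → 0 < M →
  ∀ (F : C(unitInterval, ℝ) →ᵇ ℝ) (ε : ℝ), 0 < ε → ∃ L₀ : ℕ, ∀ L : ℕ, L₀ ≤ L → ∃ T₀ : ℝ, ∀ T : ℝ,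
    T₀ ≤ T → ∀ μ : Measure ℝ, AdmL c₁ c₂ K s T μ →
    |∫ x, F (pathR ρ M (T * x)) ∂μ - ∫ θ, F (pathT ρ M (L ^ 2) θ) ∂Th| ≤ ε

/-- **package TOR** (from `S_UP`, `S_BLK`, `S_CLT`, `S_FOUR`, `S_TIGHT`): the invariance
principle on the torus -/
def S_TOR : Prop := ∀ (ρ : ℕ → ℝ) (M L : ℕ → ℕ), (∀ j, 0 < ρ j ∧ ρ j < 1) → Tendsto ρ atTop (𝓝 0) →
  Tendsto M atTop atTop →
  (∀ a b : ℕ, 0 < a → a ≤ b → Tendsto (fun j => (∑ n ∈ Finset.Icc 1 (L j ^ 2),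
    cd n ^ 2 * (1 - cos (2 * π * (√n * (ρ j * ((a : ℝ) / b)))))) / sg (ρ j) ^ 2) atTop
      (𝓝 ((a : ℝ) / b))) →
  ∀ {Ω : Type} [MeasurableSpace Ω] (P : Measure Ω) (B : ℝ≥0 → Ω → ℝ), IsBrownianReal B P →
  ∀ F : C(unitInterval, ℝ) →ᵇ ℝ,
    Tendsto (fun j => ∫ θ, F (pathT (ρ j) (M j) (L j ^ 2) θ) ∂Th) atTop (𝓝 (∫ ω, F (bpath B ω) ∂P))

/-- **the theorem** -/
def S_MAIN : Prop := ∀ c₁ c₂ K s : ℝ, 0 < c₁ → 1 / 3 < s →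
  ∀ {Ω : Type} [MeasurableSpace Ω] (P : Measure Ω) (B : ℝ≥0 → Ω → ℝ), IsBrownianReal B P →
  ∀ (F : C(unitInterval, ℝ) →ᵇ ℝ) (ε : ℝ), 0 < ε →
  ∃ (ρ₀ : ℝ) (M₀ : ℕ), 0 < ρ₀ ∧ ∀ (ρ : ℝ) (M : ℕ), 0 < ρ → ρ ≤ ρ₀ → M₀ ≤ M → ∃ T₀ : ℝ, ∀ T : ℝ,
    T₀ ≤ T → ∀ μ : Measure ℝ, AdmL c₁ c₂ K s T μ →
    |∫ x, F (pathR ρ M (T * x)) ∂μ - ∫ ω, F (bpath B ω) ∂P| ≤ ε

end Pool.Agent.U251.LD
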