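import Mathlib
import Pool.Agent.U251.LB.C
import Pool.Agent.U251.LD.Stm

/-!
# Project LD, package LIM: the limit for a fixed length (port of project LB)
-/

set_option autoImplicit false

namespace Pool.Agent.U251.LD.Lim

open Real MeasureTheory Filter Topology ProbabilityTheory Pool.Agent.U581.BM Pool.Agent.U581.LB
open Pool.Agent.U251.LB (EE vec polygon_vec inner_vec vec_meas GG GG_vec Yq_cont Yq_per sum_Yq Yq_lin Y_lin adm_char ptw sf_mem)
open scoped BoundedContinuousFunction NNReal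

/-- the increments of the truncated series -/
theorem UD_incr (ρ u : ℝ) (N : ℕ) (R : ℝ) : (UD N (R + ρ * u) - UD N R) / sg ρ =
    ∑ n ∈ Finset.Icc 1 N,
      (cc ρ u n * Complex.exp (((2 * π * (√n * R) : ℝ) : ℂ) * Complex.I)).re := by
  unfold UD
  rw [← Finset.sum_sub_distrib, Finset.sum_div]
  refine Finset.sum_congr rfl fun n _ => ?_
  unfold cc
  have e : ((cd n / sg ρ : ℝ) : ℂ) * Complex.exp (((-(π / 4) : ℝ) : ℂ) * Complex.I) *
      (Complex.exp (((2 * π * (√n * (ρ * u)) : ℝ) : ℂ) * Complex.I) - 1) *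
      Complex.exp (((2 * π * (√n * R) : ℝ) : ℂ) * Complex.I) =
      ((cd n / sg ρ : ℝ) : ℂ) *
        (Complex.exp (((2 * π * ((R + ρ * u) * √n) - π / 4 : ℝ) : ℂ) * Complex.I) -
          Complex.exp (((2 * π * (R * √n) - π / 4 : ℝ) : ℂ) * Complex.I)) := by
    have e1 : Complex.exp (((2 * π * ((R + ρ * u) * √n) - π / 4 : ℝ) : ℂ) * Complex.I) =
        Complex.exp (((-(π / 4) : ℝ) : ℂ) * Complex.I) *
        Complex.exp (((2 * π * (√n * (ρ * u)) : ℝ) : ℂ) * Complex.I) *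
        Complex.exp (((2 * π * (√n * R) : ℝ) : ℂ) * Complex.I) := by
      rw [← Complex.exp_add, ← Complex.exp_add]
      congr 1
      push_cast
      ring
    have e2 : Complex.exp (((2 * π * (R * √n) - π / 4 : ℝ) : ℂ) * Complex.I) =
        Complex.exp (((-(π / 4) : ℝ) : ℂ) * Complex.I) *
        Complex.exp (((2 * π * (√n * R) : ℝ) : ℂ) * Complex.I) := by
      rw [← Complex.exp_add]
      congr 1
      push_cast
      ring
    rw [e1, e2]
    ring
  rw [e, Complex.re_ofReal_mul, Complex.sub_re, Complex.exp_ofReal_mul_I_re,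
    Complex.exp_ofReal_mul_I_re]
  ring

/-- the increments of the truncated series -/
noncomputable def wL (ρ : ℝ) (M N : ℕ) (R : ℝ) (i : ℕ) : ℝ :=
  (UD N (R + ρ * (i / M)) - UD N R) / sg ρ

theorem UD_cont (N : ℕ) : Continuous (UD N) := by
  unfold UD
  fun_prop

theorem wL_cont (ρ : ℝ) (M N i : ℕ) : Continuous fun R => wL ρ M N R i := by
  unfold wL
  have := UD_cont N
  fun_prop

/-- the character of the increments -/
theorem char_wL (ρ : ℝ) (M N : ℕ) (t : ℕ → ℝ) (R : ℝ) :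
    ∑ i ∈ Finset.range (M + 1), t i * wL ρ M N R i =
      ∑ q ∈ Finset.Icc 1 N,
        Yq (fun n => ∑ i ∈ Finset.range (M + 1), (t i : ℂ) * cc ρ (i / M) n) N q (√q * R) := by
  simp_rw [Yq_lin]
  rw [Finset.sum_comm]
  refine Finset.sum_congr rfl fun i _ => ?_
  rw [← Finset.mul_sum, sum_Yq, ← UD_incr]
  rfl

theorem char_lim (hKW : S_KW) (hF : S_FOUR) {P : ℕ → Measure ℝ} (hP : ∀ k, IsProbabilityMeasure (P k))
    (hch : ∀ θ : ℝ, θ ≠ 0 →
      Tendsto (fun k => ∫ x, Complex.exp (((θ * x : ℝ) : ℂ) * Complex.I) ∂(P k)) atTop (𝓝 0))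
    (ρ : ℝ) (M N : ℕ) (t : ℕ → ℝ) :
    Tendsto (fun k => ∫ R, Complex.exp (((∑ i ∈ Finset.range (M + 1), t i * wL ρ M N R i : ℝ) : ℂ) *
      Complex.I) ∂(P k)) atTop
      (𝓝 (∫ θ, Complex.exp (((∑ i ∈ Finset.range (M + 1), t i * Y (cc ρ (i / M)) N θ : ℝ) : ℂ) *
      Complex.I) ∂Th)) := by
  set c : ℕ → ℂ := fun n => ∑ i ∈ Finset.range (M + 1), (t i : ℂ) * cc ρ (i / M) n with hc
  have e1 : ∀ θ, ∑ i ∈ Finset.range (M + 1), t i * Y (cc ρ (i / M)) N θ = Y c N θ := by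
    intro θ
    rw [hc, Y_lin]
  simp_rw [e1]
  rw [(hF c N).2.1]
  set S : Finset ℕ := (Finset.Icc 1 N).filter Squarefree with hS
  have hempty : ∀ q, ¬ Squarefree q → ∀ x, Yq c N q x = 0 := by
    intro q hq x
    unfold Yq blk
    apply Finset.sum_eq_zero
    intro n hn
    exfalso
    apply hq
    rw [← (Finset.mem_filter.1 hn).2]
    exact sf_sqf n
  have e2 : ∏ q ∈ Finset.Icc 1 N, ∫ x in (0 : ℝ)..1, Complex.exp (((Yq c N q x : ℝ) : ℂ) * Complex.I) =
      ∏ q ∈ S, ∫ x in (0 : ℝ)..1, Complex.exp (((Yq c N q x : ℝ) : ℂ) * Complex.I) := by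
    rw [hS]
    symm
    apply Finset.prod_filter_of_ne
    intro q _ hne
    by_contra hq
    apply hne
    simp [hempty q hq]
  have e3 : ∀ R : ℝ, Complex.exp (((∑ i ∈ Finset.range (M + 1), t i * wL ρ M N R i : ℝ) : ℂ) *
      Complex.I) = ∏ q ∈ S, Complex.exp (((Yq c N q (√q * R) : ℝ) : ℂ) * Complex.I) := by
    intro R
    rw [char_wL, ← hc]
    rw [← Complex.exp_sum]
    congr 1
    rw [← Finset.sum_mul]
    congr 1
    rw [← Complex.ofReal_sum]
    congr 1
    rw [hS]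
    symm
    apply Finset.sum_filter_of_ne
    intro q _ hne
    by_contra hq
    exact hne (hempty q hq _)
  simp_rw [e3]
  rw [e2]
  refine hKW P hP hch S (fun q hq => (Finset.mem_filter.1 hq).2)
    (fun q x => Complex.exp (((Yq c N q x : ℝ) : ℂ) * Complex.I)) (fun q => ?_) (fun q x => ?_)
  · have := Yq_cont c N q
    fun_prop
  · simp only [Yq_per]

theorem lim_fixed (hKW : S_KW) (hF : S_FOUR) {P : ℕ → Measure ℝ}
    (hP : ∀ k, IsProbabilityMeasure (P k))
    (hch : ∀ θ : ℝ, θ ≠ 0 →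
      Tendsto (fun k => ∫ x, Complex.exp (((θ * x : ℝ) : ℂ) * Complex.I) ∂(P k)) atTop (𝓝 0))
    (ρ : ℝ) (M N : ℕ) (F : C(unitInterval, ℝ) →ᵇ ℝ) :
    Tendsto (fun k => ∫ R, GG M F (vec M (wL ρ M N R)) ∂(P k)) atTop
      (𝓝 (∫ θ, F (pathT ρ M N θ) ∂Th)) := by
  have hV : Measurable fun R : ℝ => vec M (wL ρ M N R) :=
    vec_meas M fun i => (wL_cont ρ M N i).measurable
  have hT : Measurable fun θ : ℕ → ℝ => vec M (fun i => Y (cc ρ (i / M)) N θ) :=
    vec_meas M fun i => (hF _ N).1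
  let μ : ℕ → ProbabilityMeasure (EE M) := fun k =>
    ⟨(P k).map (fun R => vec M (wL ρ M N R)), Measure.isProbabilityMeasure_map hV.aemeasurable⟩
  let μ₀ : ProbabilityMeasure (EE M) :=
    ⟨Th.map (fun θ : ℕ → ℝ => vec M (fun i => Y (cc ρ (i / M)) N θ)),
      Measure.isProbabilityMeasure_map hT.aemeasurable⟩
  have hconv : Tendsto μ atTop (𝓝 μ₀) := by
    refine ProbabilityMeasure.tendsto_iff_tendsto_charFun.2 fun θ => ?_
    have e1 : ∀ k, charFun ((μ k : ProbabilityMeasure _) : Measure _) θ =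
        ∫ R, Complex.exp (((∑ i ∈ Finset.range (M + 1),
          ext0 M θ i * wL ρ M N R i : ℝ) : ℂ) * Complex.I) ∂(P k) := by
      intro k
      show charFun ((P k).map (fun R => vec M (wL ρ M N R))) θ = _
      rw [charFun_apply, integral_map hV.aemeasurable (by fun_prop)]
      simp_rw [inner_vec]
    have e2 : charFun ((μ₀ : ProbabilityMeasure _) : Measure _) θ =
        ∫ ω, Complex.exp (((∑ i ∈ Finset.range (M + 1),
          ext0 M θ i * Y (cc ρ (i / M)) N ω : ℝ) : ℂ) * Complex.I) ∂Th := by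
      show charFun (Th.map (fun θ : ℕ → ℝ => vec M (fun i => Y (cc ρ (i / M)) N θ))) θ = _
      rw [charFun_apply, integral_map hT.aemeasurable (by fun_prop)]
      simp_rw [inner_vec]
    simp_rw [e1]
    rw [e2]
    exact char_lim hKW hF hP hch ρ M N _
  rw [ProbabilityMeasure.tendsto_iff_forall_integral_tendsto] at hconv
  have h2 := hconv (GG M F)
  have e3 : ∀ k, ∫ z, GG M F z ∂(μ k : Measure _) = ∫ R, GG M F (vec M (wL ρ M N R)) ∂(P k) := by
    intro k
    show ∫ z, GG M F z ∂((P k).map (fun R => vec M (wL ρ M N R))) = _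
    rw [integral_map hV.aemeasurable (GG M F).continuous.aestronglyMeasurable]
  have e4 : ∫ z, GG M F z ∂(μ₀ : Measure _) = ∫ θ, F (pathT ρ M N θ) ∂Th := by
    show ∫ z, GG M F z ∂(Th.map (fun θ : ℕ → ℝ => vec M (fun i => Y (cc ρ (i / M)) N θ))) = _
    rw [integral_map hT.aemeasurable (GG M F).continuous.aestronglyMeasurable]
    simp_rw [GG_vec]
    rfl
  simp_rw [e3] at h2
  rw [e4] at h2
  exact h2

/-- **the limit for a fixed length, uniformly in the measures** -/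
theorem step2 (hKW : S_KW) (hF : S_FOUR) {c₁ c₂ K s : ℝ} (hs : 1 / 3 < s) (ρ : ℝ) (M N : ℕ)
    (F : C(unitInterval, ℝ) →ᵇ ℝ) {ε : ℝ} (hε : 0 < ε) : ∃ T₀ : ℝ, ∀ T : ℝ, T₀ ≤ T →
    ∀ μ : Measure ℝ, AdmL c₁ c₂ K s T μ →
    |∫ x, GG M F (vec M (wL ρ M N (T * x))) ∂μ - ∫ θ, F (pathT ρ M N θ) ∂Th| ≤ ε := by
  by_contra hcon
  push Not at hcon
  choose T hT μ hμ hbad using fun k : ℕ => hcon ((k : ℝ) + 1)
  have hP : ∀ k, IsProbabilityMeasure ((μ k).map fun x => T k * x) := by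
    intro k
    have := (hμ k).prob
    exact Measure.isProbabilityMeasure_map (measurable_const_mul (T k)).aemeasurable
  have h1 := lim_fixed hKW hF hP (adm_char hs hT hμ) ρ M N F
  rw [Metric.tendsto_atTop] at h1
  obtain ⟨k₀, hk₀⟩ := h1 ε hε
  have h2 := hk₀ k₀ le_rfl
  have hV : Measurable fun R : ℝ => vec M (wL ρ M N R) :=
    vec_meas M fun i => (wL_cont ρ M N i).measurable
  have hg : Measurable fun R : ℝ => GG M F (vec M (wL ρ M N R)) :=
    (GG M F).continuous.measurable.comp hV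
  rw [integral_map (measurable_const_mul (T k₀)).aemeasurable hg.aestronglyMeasurable,
    Real.dist_eq] at h2
  exact absurd h2 (not_lt.2 (hbad k₀).le)

end Pool.Agent.U251.LD.Lim
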