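import Pool.Agent.U251.LD.StmQ
import Pool.Agent.U97.LD.UP
import Pool.Agent.U739.LD.BLK
import Pool.Agent.U858.LD.VAR
import Pool.Agent.U212.LD.D4
import Pool.Agent.U454.LD.D4I
import Pool.Agent.U283.LD.RSA
import Pool.Agent.U505.LD.DIV
import Pool.Agent.U324.LD.MB2
import Pool.Agent.U95.LD.VARQ
import Pool.Agent.U580.LD.APX
import Pool.Agent.U129.LD.RM
import Pool.Agent.U2.LD.MAINQ
import Pool.Agent.U461.LB.MB1
import Pool.Agent.U59.LB.TLOW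
import Pool.Agent.U643.LB.MOM
import Pool.Agent.U653.LB.SLU
import Pool.Agent.U603.LB.FOUR
import Pool.Agent.U908.LB.CLT
import Pool.Agent.U293.LB.TIGHT
import Pool.Agent.U346.LD.MSQ
import Pool.Agent.U56.LD.SEQ

/-!
# Project LDQ: the assembly
-/

set_option autoImplicit false

namespace Pool.Agent.U251.LD

theorem g_UP : S_UP := Pool.Agent.U97.LD.UP.t_UP

theorem g_VAR : S_VAR := Pool.Agent.U858.LD.t_VAR (Pool.Agent.U283.LD.t_RSA Pool.Agent.U212.LD.t_D4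
  Pool.Agent.U454.LD.t_D4I) g_UP

theorem g_VARQ : S_VARQ := Pool.Agent.U95.LD.VARQ.t_VARQ g_VAR g_UP

theorem g_MB : S_MB := Pool.Agent.U324.LD.MB2.t_MB2 Pool.Agent.U461.LB.t_MB1 Pool.Agent.U505.LD.DIV.t_DIV g_UP

theorem g_MOM : Pool.Agent.U581.LB.S_MOM := Pool.Agent.U643.LB.t_MOM Pool.Agent.U59.LB.t_LOW

theorem g_MAINQ (hMSQ : S_MSQ) (hSEQ : S_UP → S_BLK → Pool.Agent.U581.LB.S_CLT → Pool.Agent.U581.LB.S_FOUR →
    Pool.Agent.U581.LB.S_TIGHT → Pool.Agent.U581.LB.S_MOM → S_MB → S_VARQ → S_APX →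
    Pool.Agent.U581.LB.S_SLU → S_RM → S_SEQ) : S_MAINQ :=
  Pool.Agent.U2.LD.MAINQ.t_MAINQ (hSEQ g_UP Pool.Agent.U739.LD.BLK.t_BLK Pool.Agent.U908.LB.CLT.t_CLT
    Pool.Agent.U603.LB.t_FOUR Pool.Agent.U293.LB.TIGHT.t_TIGHT g_MOM g_MB g_VARQ
    (Pool.Agent.U580.LD.APX.t_APX hMSQ) Pool.Agent.U653.LB.t_SLU Pool.Agent.U129.LD.RM.t_RM)

theorem main_full : S_MAINQ := g_MAINQ Pool.Agent.U346.LD.MSQ.t_MSQ Pool.Agent.U56.LD.SEQ.t_SEQ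

end Pool.Agent.U251.LD
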