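import Mathlib
import Pool.Agent.U251.LD.StmQ
import Pool.Agent.U338.LB.FIN

/-!
# Project LD: the theorems in terms of `Δ`
-/

set_option autoImplicit false

namespace Pool.Agent.U251.LD.Fin

open Real MeasureTheory Filter Topology ProbabilityTheory Pool.Agent.U581.BM
open Pool.Agent.U581.LB (AdmL)
open Pool.Agent.U338.LB.FIN (m12 int_m12 adm)
open scoped BoundedContinuousFunction NNReal

/-- the polygonal path of the increments of `Δ(y²)` -/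
noncomputable def pathY (D : ℝ → ℝ) (ρ : ℝ) (M : ℕ) (y : ℝ) : C(unitInterval, ℝ) :=
  polygon M fun i => (D ((y + ρ * (i / M)) ^ 2) - D (y ^ 2)) /
    (√y * (4 / π * √(ρ * log (1 / (2 * ρ)) ^ 3)))

theorem sg_two (ρ : ℝ) : sg (2 * ρ) = 4 / π * √(ρ * log (1 / (2 * ρ)) ^ 3) := by
  unfold sg
  have h : 8 / π ^ 2 * (2 * ρ * log (1 / (2 * ρ)) ^ 3) =
      (4 / π) ^ 2 * (ρ * log (1 / (2 * ρ)) ^ 3) := by
    have := Real.pi_ne_zero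
    field_simp
    ring
  rw [h, Real.sqrt_mul (sq_nonneg _), Real.sqrt_sq (by positivity)]

theorem path_eq (D : ℝ → ℝ) (hD : ∀ x, D x = Dl x) (ρ : ℝ) (M : ℕ) (y : ℝ) :
    pathR (2 * ρ) M (2 * y) = pathY D ρ M y := by
  unfold pathR pathY
  congr 1
  funext i
  unfold Pd
  rw [sg_two, hD, hD, Real.sqrt_mul (by norm_num : (0 : ℝ) ≤ 2),
    show (2 * y + 2 * ρ * ((i : ℝ) / M)) / 2 = y + ρ * (i / M) by ring,
    show 2 * y / 2 = y by ring, ← mul_sub, mul_assoc, mul_div_mul_left _ _ (by positivity)]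

/-- measures on `[c₁, c₂]` whose Fourier transform decays -/
structure AdmY (c₁ c₂ K s T : ℝ) (μ : Measure ℝ) : Prop where
  prob : IsProbabilityMeasure μ
  supp : ∀ᵐ x ∂μ, c₁ ≤ x ∧ x ≤ c₂
  dec : ∀ t : ℝ, T ^ (1 / 10 : ℝ) ≤ |t| → |t| ≤ 4 * T ^ 2 →
    ‖∫ x, Complex.exp (((t * x : ℝ) : ℂ) * Complex.I) ∂μ‖ ≤ K * |t| ^ (-s)

theorem AdmY.adm {c₁ c₂ K s T : ℝ} (hT : 0 < T) {μ : Measure ℝ} (h : AdmY c₁ c₂ K s T μ) :
    AdmL c₁ c₂ K s (2 * T) μ where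
  prob := h.prob
  supp := h.supp
  dec := fun t h1 h2 => h.dec t ((Real.rpow_le_rpow hT.le (by linarith) (by norm_num)).trans h1)
    (h2.trans (le_of_eq (by ring)))

theorem lebY (T : ℝ) (hT : 1 ≤ T) : AdmY 1 2 2 (1 / 2) T m12 where
  prob := inferInstance
  supp := (adm T hT).supp
  dec := fun t h1 _ => Pool.Agent.U338.LB.FIN.four t
    ((Real.one_le_rpow hT (by norm_num)).trans h1)

theorem leb_int (g : ℝ → ℝ) {T : ℝ} (hT : T ≠ 0) :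
    (1 / T) * (∫ y in T..(2 * T), g y) = ∫ x, g (T * x) ∂m12 := by
  rw [int_m12]
  have h3 := intervalIntegral.integral_comp_mul_left (a := 1) (b := 2) g hT
  rw [h3, mul_one, mul_comm T 2, smul_eq_mul, one_div]

/-- the theorem in the full range, in terms of `Δ` -/
theorem t_FINQ (h : S_MAINQ) (D : ℝ → ℝ) (hD : ∀ x, D x = Dl x) :
    ∀ c₁ c₂ K s : ℝ, 0 < c₁ → 1 / 3 < s →
    ∀ {Ω : Type} [MeasurableSpace Ω] (P : Measure Ω) (B : ℝ≥0 → Ω → ℝ), IsBrownianReal B P →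
    ∀ (F : C(unitInterval, ℝ) →ᵇ ℝ) (ε : ℝ), 0 < ε →
    ∃ (ρ₀ δ T₀ : ℝ) (M₀ : ℕ), 0 < ρ₀ ∧ 0 < δ ∧ ∀ (T ρ : ℝ) (M : ℕ), T₀ ≤ T → T ^ (-δ) ≤ ρ →
      ρ ≤ ρ₀ → M₀ ≤ M → (M : ℝ) ≤ T ^ δ → ∀ μ : Measure ℝ, AdmY c₁ c₂ K s T μ →
      |∫ x, F (pathY D ρ M (T * x)) ∂μ - ∫ ω, F (bpath B ω) ∂P| ≤ ε := by
  intro c₁ c₂ K s hc hs Ω _ P B hB F ε hε
  obtain ⟨ρ₀, δ, T₀, M₀, hρ₀, hδ, H⟩ := h c₁ c₂ K s hc hs P B hB F ε hε
  refine ⟨ρ₀ / 2, δ, max T₀ 1, M₀, by linarith, hδ, fun T ρ M hT h1 h2 h3 h4 μ hμ => ?_⟩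
  have hT1 : 1 ≤ T := (le_max_right _ _).trans hT
  have hT0 : 0 < T := by linarith
  have hp : 0 < T ^ (-δ) := Real.rpow_pos_of_pos hT0 _
  have k1 : T₀ ≤ 2 * T := ((le_max_left _ _).trans hT).trans (by linarith)
  have k2 : (2 * T) ^ (-δ) ≤ 2 * ρ := by
    have e : (2 * T) ^ (-δ) ≤ T ^ (-δ) :=
      Real.rpow_le_rpow_of_nonpos hT0 (by linarith) (by linarith)
    linarith
  have k3 : (M : ℝ) ≤ (2 * T) ^ δ := h4.trans (Real.rpow_le_rpow hT0.le (by linarith) hδ.le)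
  have := H (2 * T) (2 * ρ) M k1 k2 (by linarith) h3 k3 μ (hμ.adm hT0)
  have e : ∀ x, pathR (2 * ρ) M (2 * T * x) = pathY D ρ M (T * x) := by
    intro x
    rw [mul_assoc, path_eq D hD]
  simp_rw [e] at this
  exact this

/-- the theorem, in terms of `Δ` -/
theorem t_FIN (h : S_MAIN) (D : ℝ → ℝ) (hD : ∀ x, D x = Dl x) :
    ∀ c₁ c₂ K s : ℝ, 0 < c₁ → 1 / 3 < s →
    ∀ {Ω : Type} [MeasurableSpace Ω] (P : Measure Ω) (B : ℝ≥0 → Ω → ℝ), IsBrownianReal B P →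
    ∀ (F : C(unitInterval, ℝ) →ᵇ ℝ) (ε : ℝ), 0 < ε →
    ∃ (ρ₀ : ℝ) (M₀ : ℕ), 0 < ρ₀ ∧ ∀ (ρ : ℝ) (M : ℕ), 0 < ρ → ρ ≤ ρ₀ → M₀ ≤ M → ∃ T₀ : ℝ, ∀ T : ℝ,
      T₀ ≤ T → ∀ μ : Measure ℝ, AdmY c₁ c₂ K s T μ →
      |∫ x, F (pathY D ρ M (T * x)) ∂μ - ∫ ω, F (bpath B ω) ∂P| ≤ ε := by
  intro c₁ c₂ K s hc hs Ω _ P B hB F ε hε
  obtain ⟨ρ₀, M₀, hρ₀, H⟩ := h c₁ c₂ K s hc hs P B hB F ε hε
  refine ⟨ρ₀ / 2, M₀, by linarith, fun ρ M h1 h2 h3 => ?_⟩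
  obtain ⟨T₀, HT⟩ := H (2 * ρ) M (by linarith) (by linarith) h3
  refine ⟨max T₀ 1, fun T hT μ hμ => ?_⟩
  have hT1 : 1 ≤ T := (le_max_right _ _).trans hT
  have hT0 : 0 < T := by linarith
  have k1 : T₀ ≤ 2 * T := ((le_max_left _ _).trans hT).trans (by linarith)
  have := HT (2 * T) k1 μ (hμ.adm hT0)
  have e : ∀ x, pathR (2 * ρ) M (2 * T * x) = pathY D ρ M (T * x) := by
    intro x
    rw [mul_assoc, path_eq D hD]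
  simp_rw [e] at this
  exact this

end Pool.Agent.U251.LD.Fin
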