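import Mathlib
import Pool.Agent.U251.LD.LIM

/-!
# Project LD, package MAIN: from the torus to the arguments (port of project LB)
-/

set_option autoImplicit false

namespace Pool.Agent.U251.LD.Lim

open Real MeasureTheory Filter Topology ProbabilityTheory Pool.Agent.U581.BM
open Pool.Agent.U581.LB (Th Y AdmL)
open scoped BoundedContinuousFunction NNReal

/-- the quotient of the variances -/
theorem quot (ρ : ℕ → ℝ) (h01 : ∀ j, 0 < ρ j ∧ ρ j < 1) (hρ : Tendsto ρ atTop (𝓝 0)) (u : ℝ) (hu : 0 < u) :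
    Tendsto (fun j => 8 / π ^ 2 * ((ρ j * u) * log (1 / (ρ j * u)) ^ 3) / sg (ρ j) ^ 2) atTop (𝓝 u) := by
  have hinf : Tendsto (fun j => log (1 / ρ j)) atTop atTop := by
    have h1 : Tendsto ρ atTop (𝓝[>] 0) :=
      tendsto_nhdsWithin_iff.2 ⟨hρ, Eventually.of_forall fun j => (h01 j).1⟩
    have h2 := Real.tendsto_log_atTop.comp (tendsto_inv_nhdsGT_zero.comp h1)
    refine h2.congr ?_
    intro j
    simp [Function.comp]
  have h3 : Tendsto (fun j => u * (1 + log (1 / u) * (log (1 / ρ j))⁻¹) ^ 3) atTop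
      (𝓝 (u * (1 + log (1 / u) * 0) ^ 3)) :=
    (((hinf.inv_tendsto_atTop.const_mul (log (1 / u))).const_add 1).pow 3).const_mul u
  rw [mul_zero, add_zero, one_pow, mul_one] at h3
  refine h3.congr ?_
  intro j
  obtain ⟨h0, h1⟩ := h01 j
  have hl : 0 < log (1 / ρ j) := by
    apply Real.log_pos
    rw [lt_div_iff₀ h0]; linarith
  rw [sg_sq h0 h1]
  have e : log (1 / (ρ j * u)) = log (1 / ρ j) + log (1 / u) := by
    rw [← Real.log_mul (by positivity) (by positivity)]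
    congr 1
    field_simp
  rw [e]
  have hp := Real.pi_ne_zero
  field_simp

theorem t_MAIN : S_LIM → S_TOR → S_VAR → S_MAIN := by
  intro hLIM hTOR hVAR c₁ c₂ K s hc₁ hs Ω _ P B hB F ε hε
  by_contra hcon
  push Not at hcon
  -- the sequences
  have hneg : ∀ j : ℕ, ∃ (ρ : ℝ) (M : ℕ), 0 < ρ ∧ ρ ≤ 1 / (j + 2) ∧ j + 1 ≤ M ∧ ∀ T₀ : ℝ, ∃ T : ℝ, T₀ ≤ T ∧
      ∃ μ : Measure ℝ, AdmL c₁ c₂ K s T μ ∧
        ε < |∫ x, F (pathR ρ M (T * x)) ∂μ - ∫ ω, F (bpath B ω) ∂P| := by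
    intro j
    obtain ⟨ρ, M, h1, h2, h3, h4⟩ := hcon (1 / (j + 2)) (j + 1) (by positivity)
    exact ⟨ρ, M, h1, h2, h3, h4⟩
  choose ρ M hρ0 hρ1 hM hbad using hneg
  have h01 : ∀ j, 0 < ρ j ∧ ρ j < 1 := by
    intro j
    refine ⟨hρ0 j, (hρ1 j).trans_lt ?_⟩
    rw [div_lt_one (by positivity)]
    have : (0 : ℝ) ≤ j := Nat.cast_nonneg j
    linarith
  have hρ : Tendsto ρ atTop (𝓝 0) := by
    have h1 : Tendsto (fun j : ℕ => 1 / ((j : ℝ) + 2)) atTop (𝓝 0) := by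
      have h2 := tendsto_one_div_add_atTop_nhds_zero_nat (𝕜 := ℝ)
      have h3 := h2.comp (tendsto_add_atTop_nat 1)
      refine h3.congr ?_
      intro j
      simp only [Function.comp]
      push_cast
      congr 1
      ring
    exact squeeze_zero (fun j => (hρ0 j).le) hρ1 h1
  have hMinf : Tendsto M atTop atTop :=
    tendsto_atTop_mono (fun j => (Nat.le_succ j).trans (hM j)) tendsto_id
  have hLj := fun j : ℕ => hLIM c₁ c₂ K s hc₁ hs (ρ j) (M j) (h01 j).1 (h01 j).2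
    (by have := hM j; omega) F (ε / 2) (by positivity)
  choose L0 hL0 using hLj
  have hV := fun k : ℕ => hVAR (1 / ((k : ℝ) + 1)) (by positivity)
  choose h0 hh0 hN using hV
  choose! N0 hN0 using hN
  set L : ℕ → ℕ := fun j => L0 j + ∑ k ∈ Finset.range (j + 1), ∑ a ∈ Finset.range (j + 1),
    ∑ b ∈ Finset.range (j + 1), N0 k (ρ j * ((a : ℝ) / b)) with hL
  have hLge : ∀ j k a b : ℕ, k ≤ j → a ≤ j → b ≤ j → N0 k (ρ j * ((a : ℝ) / b)) ≤ L j ^ 2 := by
    intro j k a b hk ha hb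
    have h1 : N0 k (ρ j * ((a : ℝ) / b)) ≤ ∑ b ∈ Finset.range (j + 1), N0 k (ρ j * ((a : ℝ) / b)) :=
      Finset.single_le_sum (f := fun b : ℕ => N0 k (ρ j * ((a : ℝ) / b))) (fun _ _ => Nat.zero_le _)
        (Finset.mem_range.2 (by omega))
    have h2 : ∑ b ∈ Finset.range (j + 1), N0 k (ρ j * ((a : ℝ) / b)) ≤
        ∑ a ∈ Finset.range (j + 1), ∑ b ∈ Finset.range (j + 1), N0 k (ρ j * ((a : ℝ) / b)) :=
      Finset.single_le_sum (f := fun a : ℕ => ∑ b ∈ Finset.range (j + 1), N0 k (ρ j * ((a : ℝ) / b)))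
        (fun _ _ => Nat.zero_le _) (Finset.mem_range.2 (by omega))
    have h3 : ∑ a ∈ Finset.range (j + 1), ∑ b ∈ Finset.range (j + 1), N0 k (ρ j * ((a : ℝ) / b)) ≤
        ∑ k ∈ Finset.range (j + 1), ∑ a ∈ Finset.range (j + 1), ∑ b ∈ Finset.range (j + 1),
          N0 k (ρ j * ((a : ℝ) / b)) :=
      Finset.single_le_sum (f := fun k : ℕ => ∑ a ∈ Finset.range (j + 1), ∑ b ∈ Finset.range (j + 1),
        N0 k (ρ j * ((a : ℝ) / b))) (fun _ _ => Nat.zero_le _) (Finset.mem_range.2 (by omega))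
    have h4 : L j ≤ L j ^ 2 := Nat.le_self_pow (by norm_num) _
    have h5 : ∑ k ∈ Finset.range (j + 1), ∑ a ∈ Finset.range (j + 1), ∑ b ∈ Finset.range (j + 1),
          N0 k (ρ j * ((a : ℝ) / b)) ≤ L j := Nat.le_add_left _ _
    omega
  -- the variances
  have hvar : ∀ a b : ℕ, 0 < a → a ≤ b → Tendsto (fun j => (∑ n ∈ Finset.Icc 1 (L j ^ 2),
      cd n ^ 2 * (1 - cos (2 * π * (√n * (ρ j * ((a : ℝ) / b)))))) / sg (ρ j) ^ 2) atTop
        (𝓝 ((a : ℝ) / b)) := by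
    intro a b ha hab
    have ha' : (0 : ℝ) < a := by exact_mod_cast ha
    have hb' : (0 : ℝ) < b := by exact_mod_cast (by omega : 0 < b)
    set u : ℝ := (a : ℝ) / b with hu
    have hu0 : 0 < u := by positivity
    have hu1 : u ≤ 1 := by
      rw [hu, div_le_one hb']; exact_mod_cast hab
    have hq := quot ρ h01 hρ u hu0
    have hdiff : Tendsto (fun j => (∑ n ∈ Finset.Icc 1 (L j ^ 2),
        cd n ^ 2 * (1 - cos (2 * π * (√n * (ρ j * u))))) / sg (ρ j) ^ 2 -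
        8 / π ^ 2 * ((ρ j * u) * log (1 / (ρ j * u)) ^ 3) / sg (ρ j) ^ 2) atTop (𝓝 0) := by
      rw [Metric.tendsto_atTop]
      intro δ hδ
      obtain ⟨k, hk⟩ := exists_nat_one_div_lt (show (0 : ℝ) < δ / 4 by positivity)
      have E1 : ∀ᶠ j in atTop, ρ j * u < h0 k := by
        have : Tendsto (fun j => ρ j * u) atTop (𝓝 (0 * u)) := hρ.mul_const u
        rw [zero_mul] at this
        exact this.eventually (gt_mem_nhds (hh0 k))
      have E2 : ∀ᶠ j in atTop, 8 / π ^ 2 * ((ρ j * u) * log (1 / (ρ j * u)) ^ 3) / sg (ρ j) ^ 2 < 2 :=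
        hq.eventually (gt_mem_nhds (by linarith))
      have E3 : ∀ᶠ j : ℕ in atTop, k ≤ j ∧ a ≤ j ∧ b ≤ j :=
        (eventually_ge_atTop k).and ((eventually_ge_atTop a).and (eventually_ge_atTop b))
      obtain ⟨J, hJ⟩ := eventually_atTop.1 (E1.and (E2.and E3))
      refine ⟨J, fun j hj => ?_⟩
      obtain ⟨e1, e2, e3, e4, e5⟩ := hJ j hj
      have hp : 0 < ρ j * u := mul_pos (h01 j).1 hu0
      have hb := hN0 k (ρ j * u) hp e1.le (L j ^ 2) (hLge j k a b e3 e4 e5)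
      have hsg : 0 < sg (ρ j) := sg_pos (h01 j).1 (h01 j).2
      have hsg2 : 0 < sg (ρ j) ^ 2 := by positivity
      have hlt1 : ρ j * u < 1 := by nlinarith [(h01 j).1, (h01 j).2]
      have hlog : 0 < log (1 / (ρ j * u)) := by
        apply Real.log_pos
        rw [lt_div_iff₀ hp]; linarith
      rw [Real.dist_eq, sub_zero, ← sub_div, abs_div, abs_of_pos hsg2, div_lt_iff₀ hsg2]
      rw [div_lt_iff₀ hsg2] at e2
      have hX : 0 < ρ j * u * log (1 / (ρ j * u)) ^ 3 := by positivity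
      have hk0 : 0 < 1 / ((k : ℝ) + 1) := by positivity
      calc |∑ n ∈ Finset.Icc 1 (L j ^ 2), cd n ^ 2 * (1 - cos (2 * π * (√n * (ρ j * u)))) -
            8 / π ^ 2 * ((ρ j * u) * log (1 / (ρ j * u)) ^ 3)| ≤
            1 / ((k : ℝ) + 1) * (ρ j * u * log (1 / (ρ j * u)) ^ 3) := hb
        _ ≤ 1 / ((k : ℝ) + 1) * (2 * (8 / π ^ 2 * (ρ j * u * log (1 / (ρ j * u)) ^ 3))) := by
            apply mul_le_mul_of_nonneg_left _ hk0.le
            have hpi : 1 ≤ 2 * (8 / π ^ 2) := by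
              have h315 := Real.pi_lt_d2
              have h0 := Real.pi_pos
              rw [← mul_div_assoc, one_le_div (by positivity)]
              nlinarith
            have := mul_le_mul_of_nonneg_right hpi hX.le
            linarith
        _ ≤ 1 / ((k : ℝ) + 1) * (4 * sg (ρ j) ^ 2) :=
            mul_le_mul_of_nonneg_left (by linarith) hk0.le
        _ < δ / 4 * (4 * sg (ρ j) ^ 2) := by
            apply mul_lt_mul_of_pos_right hk (by positivity)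
        _ = δ * sg (ρ j) ^ 2 := by ring
    have := hdiff.add hq
    simpa using this
  have hlim := hTOR ρ M L h01 hρ hMinf hvar P B hB F
  rw [Metric.tendsto_atTop] at hlim
  obtain ⟨J, hJ⟩ := hlim (ε / 4) (by positivity)
  have h1 := hJ J le_rfl
  rw [Real.dist_eq] at h1
  obtain ⟨T₀, hT₀⟩ := hL0 J (L J) (Nat.le_add_right _ _)
  obtain ⟨T, hT, μ, hμ, hb⟩ := hbad J T₀
  have h2 := hT₀ T hT μ hμ
  have h3 : |∫ x, F (pathR (ρ J) (M J) (T * x)) ∂μ - ∫ ω, F (bpath B ω) ∂P| ≤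
      |∫ x, F (pathR (ρ J) (M J) (T * x)) ∂μ - ∫ θ, F (pathT (ρ J) (M J) (L J ^ 2) θ) ∂Th| +
      |∫ θ, F (pathT (ρ J) (M J) (L J ^ 2) θ) ∂Th - ∫ ω, F (bpath B ω) ∂P| := by
    have := abs_add_le (∫ x, F (pathR (ρ J) (M J) (T * x)) ∂μ - ∫ θ, F (pathT (ρ J) (M J) (L J ^ 2) θ) ∂Th)
      (∫ θ, F (pathT (ρ J) (M J) (L J ^ 2) θ) ∂Th - ∫ ω, F (bpath B ω) ∂P)
    simpa using this
  linarith

end Pool.Agent.U251.LD.Lim
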